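import Pool.Agent.U896.SW.PubM

/-!
One-forms of Morrey growth: the definition used in the statement.
-/

set_option autoImplicit false

open Set Filter Topology MeasureTheory
open scoped Manifold ContDiff

noncomputable section

namespace Pool.Agent.U896.PGP

open Pool.Agent.Y501.SYP Pool.Agent.U896.SWP

variable {d : ℕ} {X : Type} [TopologicalSpace X] [ChartedSpace (ES d) X]

/-- Morrey growth with exponent `b` of a one-form: locally in the charts, the integral of `|β|` over
a ball of radius `t` is at most `C t ^ (d - b)`. (This holds with `b = 0` if `β` is locally bounded,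
and with `b = d / p` if `|β| ^ p` is locally integrable, `p ≥ 1`.) -/
def MorreyGrowth1 (b : ℝ) (β : Form (ES d) X 1) : Prop :=
  ∀ z : X, ∀ p ∈ (chartAt (ES d) z).target, ∃ r C : ℝ, 0 < r ∧
    ∀ q ∈ Metric.ball p r, ∀ t : ℝ, 0 < t → t ≤ r →
      ∫⁻ x in Metric.ball q t, ‖pb (chartAt (ES d) z).symm β x‖ₑ ∂(leb d) ≤
        ENNReal.ofReal (C * t ^ ((d : ℝ) - b))

end Pool.Agent.U896.PGP
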