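import Pool.Agent.U896.PG.G3
import Pool.Agent.U896.PG.PubG
import Pool.Agent.U896.SQ.FinalCQ

/-!
# Nonnegative forms with a primitive of small growth: the main theorem, with the public definitions
-/

set_option autoImplicit false

open Set Filter Topology MeasureTheory
open scoped Manifold ContDiff

noncomputable section

namespace Pool.Agent.U896.PGP

open Pool.Agent.Y501
open Pool.Agent.Y501.SYP
open Pool.Agent.U896.SEP
open Pool.Agent.U896.SWP
open Pool.Agent.U896.SVP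
open Pool.Agent.U896.SCP
open Pool.Agent.U896.SQP

section

variable {d : ℕ} {X : Type} [TopologicalSpace X] [ChartedSpace (ES d) X]

attribute [local instance] cs mf

/-- Caccioppoli: the growth of a nonnegative form is controlled by the growth of a primitive -/
theorem morrey_of_primitive [IsManifold 𝓘(ℝ, ES d) ∞ X] {J : End (ES d) X}
    (hJ : IsAlmostComplex J) {N : Set X} (hN : NullSet (d := d) N) {σ₀ : Form (ES d) X 2}
    (hσ₀ : IsSmooth σ₀) {β : Form (ES d) X 1} {σ : Form (ES d) X 2} (hi1 : LocInt1 β)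
    (hi : LocInt σ) (hw : WeaklyPlusD σ σ₀ β) (hCS : ∀ x, CauchySchwarzNear σ J N x)
    (hpos : ∀ x, x ∉ N → ∀ v : TangentSpace 𝓘(ℝ, ES d) x, 0 ≤ qd σ J x v) {b : ℝ} (hb : 0 ≤ b)
    (hM : MorreyGrowth1 b β) : MorreyGrowth (1 + b) σ := by
  intro z p hp
  obtain ⟨B, hB⟩ := hCS ((chartAt (ES d) z).symm p)
  obtain ⟨r₁, C₁, hr₁, hM1⟩ := hM z p hp
  have hcont : ContinuousAt (chartAt (ES d) z).symm p := (chartAt (ES d) z).continuousAt_symm hp
  have h1 := (hcont.eventually hB).and ((chartAt (ES d) z).open_target.mem_nhds hp)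
  obtain ⟨R₀, hR₀, h2⟩ := Metric.eventually_nhds_iff_ball.1 h1
  have hsm : ContDiffOn ℝ ∞ (SY.pb (d := d) (X := X) (chartAt (SY.E d) z).symm σ₀)
      (chartAt (SY.E d) z).target :=
    ((smooth_iff σ₀).1 hσ₀) _ _ (chartAt (SY.E d) z).open_target contMDiffOn_chart_symm
  have hnull : ∀ᵐ q : SY.E d, q ∉ (chartAt (SY.E d) z).target ∩ (chartAt (SY.E d) z).symm ⁻¹' N :=
    measure_eq_zero_iff_ae_notMem.1 (hN z)
  refine PG.growthG (d := d) (T := (chartAt (SY.E d) z).target) (chartAt (SY.E d) z).open_target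
    (s := SY.pb (d := d) (X := X) (chartAt (SY.E d) z).symm σ)
    (s0 := SY.pb (d := d) (X := X) (chartAt (SY.E d) z).symm σ₀)
    (b := SY.pb (d := d) (X := X) (chartAt (SY.E d) z).symm β) (hi z) (hi1 z)
    hsm.continuousOn (fun g g1 g2 g3 u v => hw z g g1 g2 g3 u v)
    (Js := SY.inChart (d := d) (X := X) J z) ((ac_of J hJ).cont z) (p := p) hp (B := |B|)
    (R₀ := R₀) (abs_nonneg B) hR₀ ?_ hb hr₁ hM1
  filter_upwards [hnull] with q hq hqb
  obtain ⟨h3, h4⟩ := h2 q hqb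
  have hqN : (chartAt (SY.E d) z).symm q ∉ N := fun h => hq ⟨h4, h⟩
  have h5 := h3 hqN
  have e0 : ∀ v : SY.E d, SY.pb (d := d) (X := X) (chartAt (SY.E d) z).symm σ q
      ![v, SY.inChart (d := d) (X := X) J z q v] =
      qd σ J ((chartAt (SY.E d) z).symm q) (Pool.Agent.Y455.SY.A z q v) := by
    intro v
    have h0 := Pool.Agent.Y455.SY.Q_eq (d := d) (X := X) σ J z (p := q) h4 v
    unfold Pool.Agent.Y455.SY.Q at h0
    exact h0
  refine ⟨fun v => ?_, fun v w => ?_⟩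
  · rw [e0]
    exact hpos _ hqN _
  · rw [e0, e0]
    have h6 := SQ.pb_two (d := d) (X := X) σ z q v w
    rw [h6]
    refine (h5 _ _).trans ?_
    exact mul_le_mul_of_nonneg_right (le_abs_self B)
      (mul_nonneg (hpos _ hqN _) (hpos _ hqN _))

theorem primitives [IsManifold 𝓘(ℝ, ES d) ∞ X] [CompactSpace X] [T2Space X] (hd : 2 ≤ d)
    {b γ : ℝ} (hb : 0 ≤ b) (hbγ : 1 + b < 2 * γ) (hγ : γ ≤ 1)
    (J : End (ES d) X) (hJ : IsAlmostComplex J) (hHol : ∀ x, HolderNear γ J x) (N : Set X)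
    (hN : NullSet (d := d) N) (σ₀ : Form (ES d) X 2) (hσ₀ : IsSmooth σ₀) (hσ₀c : IsClosedForm σ₀)
    (β : Form (ES d) X 1) (σ : Form (ES d) X 2) (hi1 : LocInt1 β) (hi : LocInt σ)
    (hw : WeaklyPlusD σ σ₀ β) (hM : MorreyGrowth1 b β) (hCS : ∀ x, CauchySchwarzNear σ J N x)
    (hpos : ∀ x, x ∉ N → ∀ v : TangentSpace 𝓘(ℝ, ES d) x, 0 ≤ qd σ J x v)
    (hsmall : ∀ z ∈ Crit σ J N, SmallAll J (connectedComponentIn (Crit σ J N) z) z) :
    ∃ (α : Form (ES d) X 1) (ρ : Form (ES d) X 2), IsSmooth α ∧ IsSmooth ρ ∧ IsD α ρ ∧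
      IsTamingSymplectic (addF σ₀ ρ) J ∧ ∀ τ : Form (ES d) X 2, (∀ x, TamesAt τ J x) →
        ∀ t : ℝ, 0 ≤ t → t ≤ 1 → NondegForm (segment τ (addF σ₀ ρ) t) :=
  currentsCQ hd (a := 1 + b) (by linarith) hbγ hγ J hJ hHol N hN σ₀ hσ₀ hσ₀c β σ hi1 hi hw
    (morrey_of_primitive hJ hN hσ₀ hi1 hi hw hCS hpos hb hM) hCS hpos hsmall

end

end Pool.Agent.U896.PGP
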