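import Pool.Agent.U896.SQ.AvQ
import Pool.Agent.U896.SC.P9

/-!
# Growth of nonnegative forms with a primitive of small growth: estimates in Euclidean space
-/

set_option autoImplicit false

open Set Filter Topology MeasureTheory
open scoped Manifold ContDiff ENNReal

noncomputable section

namespace Pool.Agent.U896.PG

open Pool.Agent.Y501.SY (E)
open Pool.Agent.Y515.SY
open Pool.Agent.U896.SE

variable {d : ℕ}

theorem bs_norm (i : Fin d) : ‖bs i‖ = 1 := by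
  unfold bs
  simp

theorem norm_le_of_bs {η : Al d 2} {M : ℝ} (hM : 0 ≤ M) (h : ∀ i j, |η ![bs i, bs j]| ≤ M) :
    ‖η‖ ≤ (d : ℝ) ^ 2 * M := by
  refine ContinuousAlternatingMap.opNorm_le_bound η (by positivity) fun v => ?_
  have h0 : η v = ∑ i, ∑ j, v 0 i * v 1 j * η ![bs i, bs j] := by
    conv_lhs => rw [pair_eta v]
    exact both_sum η (v 0) (v 1)
  rw [h0, Fin.prod_univ_two]
  have h1 : ∀ i j, ‖v 0 i * v 1 j * η ![bs i, bs j]‖ ≤ ‖v 0‖ * ‖v 1‖ * M := by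
    intro i j
    rw [norm_mul, norm_mul, Real.norm_eq_abs (η _)]
    have a1 : ‖v 0 i‖ ≤ ‖v 0‖ := PiLp.norm_apply_le (v 0) i
    have a2 : ‖v 1 j‖ ≤ ‖v 1‖ := PiLp.norm_apply_le (v 1) j
    have a3 := h i j
    gcongr
  calc ‖∑ i, ∑ j, v 0 i * v 1 j * η ![bs i, bs j]‖
      ≤ ∑ i, ∑ j, ‖v 0 i * v 1 j * η ![bs i, bs j]‖ :=
        (norm_sum_le _ _).trans (Finset.sum_le_sum fun i _ => norm_sum_le _ _)
    _ ≤ ∑ _i : Fin d, ∑ _j : Fin d, ‖v 0‖ * ‖v 1‖ * M :=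
        Finset.sum_le_sum fun i _ => Finset.sum_le_sum fun j _ => h1 i j
    _ = (d : ℝ) ^ 2 * M * (‖v 0‖ * ‖v 1‖) := by
        simp only [Finset.sum_const, Finset.card_univ, Fintype.card_fin, nsmul_eq_mul]
        ring

theorem ptG {η : Al d 2} {R : E d →L[ℝ] E d} {B : ℝ} (hB : 0 ≤ B)
    (hpos : ∀ v, 0 ≤ η ![v, R v])
    (hcs : ∀ v w, (η ![v, w]) ^ 2 ≤ B * (η ![v, R v] * η ![w, R w])) :
    ‖η‖ ≤ (d : ℝ) ^ 2 * (Real.sqrt B * ∑ i, η ![bs i, R (bs i)]) := by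
  have hS : 0 ≤ ∑ i, η ![bs i, R (bs i)] := Finset.sum_nonneg fun i _ => hpos _
  refine norm_le_of_bs (by positivity) fun i j => ?_
  refine abs_le_of_sq_le_sq ?_ (by positivity)
  have h1 : ∀ k, η ![bs k, R (bs k)] ≤ ∑ i, η ![bs i, R (bs i)] := fun k =>
    Finset.single_le_sum (f := fun i => η ![bs i, R (bs i)]) (fun i _ => hpos _)
      (Finset.mem_univ k)
  have h2 := hcs (bs i) (bs j)
  have h3 : η ![bs i, R (bs i)] * η ![bs j, R (bs j)] ≤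
      (∑ i, η ![bs i, R (bs i)]) * ∑ i, η ![bs i, R (bs i)] :=
    mul_le_mul (h1 i) (h1 j) (hpos _) hS
  have h4 := mul_le_mul_of_nonneg_left h3 hB
  have h5 : (Real.sqrt B * ∑ i, η ![bs i, R (bs i)]) ^ 2 =
      B * ((∑ i, η ![bs i, R (bs i)]) * ∑ i, η ![bs i, R (bs i)]) := by
    rw [mul_pow, Real.sq_sqrt hB]
    ring
  rw [h5]
  exact h2.trans h4

theorem ptG2 {η : Al d 2} {R : E d →L[ℝ] E d} {B κ : ℝ} (hB : 0 ≤ B)
    (hpos : ∀ v, 0 ≤ η ![v, R v])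
    (hcs : ∀ v w, (η ![v, w]) ^ 2 ≤ B * (η ![v, R v] * η ![w, R w])) {w : Fin d → E d}
    (hw : ∀ i, ‖w i - R (bs i)‖ ≤ κ) (hκ : (d : ℝ) ^ 2 * Real.sqrt B * (d * κ) ≤ 1 / 2) :
    ‖η‖ ≤ 2 * ((d : ℝ) ^ 2 * Real.sqrt B) * ∑ i, η ![bs i, w i] := by
  have h1 := ptG hB hpos hcs
  have h2 : ∀ i, η ![bs i, R (bs i)] ≤ η ![bs i, w i] + ‖η‖ * κ := by
    intro i
    have h3 : η ![bs i, w i] = η ![bs i, R (bs i)] + η ![bs i, w i - R (bs i)] := by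
      rw [← lR_apply, ← lR_apply, ← lR_apply, ← map_add, add_sub_cancel]
    have h4 := two_bound η (bs i) (w i - R (bs i))
    rw [bs_norm, one_mul] at h4
    have h5 : ‖η‖ * ‖w i - R (bs i)‖ ≤ ‖η‖ * κ :=
      mul_le_mul_of_nonneg_left (hw i) (norm_nonneg _)
    have h6 := (abs_le.1 (h4.trans h5)).1
    rw [h3]
    linarith
  have h3 : ∑ i, η ![bs i, R (bs i)] ≤ ∑ i, η ![bs i, w i] + d * (‖η‖ * κ) := by
    calc ∑ i, η ![bs i, R (bs i)] ≤ ∑ i, (η ![bs i, w i] + ‖η‖ * κ) :=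
          Finset.sum_le_sum fun i _ => h2 i
      _ = _ := by
          rw [Finset.sum_add_distrib]
          simp
  have h4 : 0 ≤ (d : ℝ) ^ 2 * Real.sqrt B := by positivity
  have h5 := mul_le_mul_of_nonneg_left h3 h4
  have h6 : (d : ℝ) ^ 2 * Real.sqrt B * (d * κ) * ‖η‖ ≤ 1 / 2 * ‖η‖ :=
    mul_le_mul_of_nonneg_right hκ (norm_nonneg _)
  have h7 : ‖η‖ ≤ (d : ℝ) ^ 2 * Real.sqrt B * ∑ i, η ![bs i, w i] + 1 / 2 * ‖η‖ := by
    calc ‖η‖ ≤ (d : ℝ) ^ 2 * Real.sqrt B * ∑ i, η ![bs i, R (bs i)] := by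
          rw [mul_assoc]; exact h1
      _ ≤ _ := h5
      _ = (d : ℝ) ^ 2 * Real.sqrt B * ∑ i, η ![bs i, w i] +
          (d : ℝ) ^ 2 * Real.sqrt B * (d * κ) * ‖η‖ := by ring
      _ ≤ _ := by linarith
  linarith

theorem one_bound (η : Al d 1) (v : E d) : |η ![v]| ≤ ‖η‖ * ‖v‖ := by
  have := η.le_opNorm ![v]
  simpa [Real.norm_eq_abs] using this

/-- a scaled cut-off function -/
theorem cut_exists (d : ℕ) : ∃ C : ℝ, 0 ≤ C ∧ ∀ (q : E d) (t : ℝ), 0 < t → ∃ g : E d → ℝ,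
    ContDiff ℝ ∞ g ∧ HasCompactSupport g ∧ tsupport g ⊆ Metric.closedBall q (2 * t) ∧
      (∀ x, 0 ≤ g x) ∧ (∀ x, g x ≤ 1) ∧ (∀ x ∈ Metric.ball q t, g x = 1) ∧
      ∀ x, ‖fderiv ℝ g x‖ ≤ C * t⁻¹ := by
  obtain ⟨ψ, hψ1, hψ2⟩ : ∃ ψ : ContDiffBump (0 : E d), ψ.rIn = 1 ∧ ψ.rOut = 2 :=
    ⟨⟨1, 2, one_pos, one_lt_two⟩, rfl, rfl⟩
  have hψs : ContDiff ℝ ∞ ψ := ψ.contDiff
  obtain ⟨C, hC⟩ := (ψ.hasCompactSupport.fderiv (𝕜 := ℝ)).exists_bound_of_continuous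
    (hψs.continuous_fderiv (by simp))
  have hC0 : 0 ≤ C := (norm_nonneg _).trans (hC 0)
  refine ⟨C, hC0, fun q t ht => ⟨fun x => ψ (t⁻¹ • (x - q)), ?_, ?_, ?_, fun x => ψ.nonneg,
    fun x => ψ.le_one, fun x hx => ?_, fun x => ?_⟩⟩
  · exact hψs.comp ((contDiff_id.sub contDiff_const).const_smul t⁻¹)
  · refine HasCompactSupport.intro (isCompact_closedBall q (2 * t)) fun x hx => ?_
    refine ψ.zero_of_le_dist ?_
    rw [hψ2, dist_zero_right, norm_smul, norm_inv, Real.norm_of_nonneg ht.le]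
    rw [Metric.mem_closedBall, not_le, dist_eq_norm] at hx
    rw [inv_mul_eq_div, le_div_iff₀ ht]
    exact hx.le
  · refine closure_minimal ?_ Metric.isClosed_closedBall
    intro x hx
    by_contra h
    apply hx
    refine ψ.zero_of_le_dist ?_
    rw [hψ2, dist_zero_right, norm_smul, norm_inv, Real.norm_of_nonneg ht.le]
    rw [Metric.mem_closedBall, not_le, dist_eq_norm] at h
    rw [inv_mul_eq_div, le_div_iff₀ ht]
    exact h.le
  · refine ψ.one_of_mem_closedBall ?_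
    rw [hψ1, Metric.mem_closedBall, dist_zero_right, norm_smul, norm_inv,
      Real.norm_of_nonneg ht.le]
    rw [Metric.mem_ball, dist_eq_norm] at hx
    rw [inv_mul_eq_div, div_le_one ht]
    exact hx.le
  · have h1 : HasFDerivAt (fun x : E d => t⁻¹ • (x - q)) (t⁻¹ • ContinuousLinearMap.id ℝ (E d)) x :=
      ((hasFDerivAt_id x).sub_const q).const_smul t⁻¹
    have h2 : HasFDerivAt ψ (fderiv ℝ ψ (t⁻¹ • (x - q))) (t⁻¹ • (x - q)) :=
      ((hψs.differentiable (by simp)) _).hasFDerivAt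
    have h3 := h2.comp x h1
    have h4 : fderiv ℝ (fun x => ψ (t⁻¹ • (x - q))) x =
        (fderiv ℝ ψ (t⁻¹ • (x - q))).comp (t⁻¹ • ContinuousLinearMap.id ℝ (E d)) := h3.fderiv
    rw [h4, ContinuousLinearMap.comp_smul, ContinuousLinearMap.comp_id, norm_smul, norm_inv,
      Real.norm_of_nonneg ht.le, mul_comm]
    exact mul_le_mul_of_nonneg_right (hC _) (by positivity)

end Pool.Agent.U896.PG
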