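import Pool.Agent.U896.PG.G1

/-!
# Growth of nonnegative forms with a primitive of small growth: the integral estimate
-/

set_option autoImplicit false

open Set Filter Topology MeasureTheory
open scoped Manifold ContDiff ENNReal

noncomputable section

namespace Pool.Agent.U896.PG

open Pool.Agent.Y501.SY (E)
open Pool.Agent.Y515.SY
open Pool.Agent.U896.SE

variable {d : ℕ}

theorem ev1_int {Φ : E d → Al d 1} (hf : Integrable Φ) (v : E d) :
    Integrable (fun q => Φ q ![v]) :=
  (ContinuousAlternatingMap.apply ℝ (E d) ℝ ![v]).integrable_comp hf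

/-- the estimate for globally integrable forms and one cut-off function -/
theorem core {g : E d → ℝ} (hg : ContDiff ℝ ∞ g) {q : E d} {t A : ℝ} (ht : 0 < t)
    (hgs : tsupport g ⊆ Metric.closedBall q (2 * t)) (hg0 : ∀ x, 0 ≤ g x) (hg1 : ∀ x, g x ≤ 1)
    (hgb : ∀ x ∈ Metric.ball q t, g x = 1) (hgd : ∀ x, ‖fderiv ℝ g x‖ ≤ A)
    {Φ Φ0 : E d → Al d 2} {Ψ : E d → Al d 1} (hΦ : Integrable Φ) (hΦ0 : Integrable Φ0)
    (hΨ : Integrable Ψ) {M S D : ℝ} (hM0 : 0 ≤ M) (hS0 : 0 ≤ S) (hD0 : 0 ≤ D)
    (hM : ∀ x, ‖Φ0 x‖ ≤ M) {w : Fin d → E d} (hw : ∀ i, ‖w i‖ ≤ S)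
    (hid : ∀ u v : E d, ∫ x, (g x * (Φ x ![u, v] - Φ0 x ![u, v]) + fderiv ℝ g x u * Ψ x ![v] -
      fderiv ℝ g x v * Ψ x ![u]) = 0)
    (hpt : ∀ᵐ x : E d, x ∈ Metric.closedBall q (2 * t) → ‖Φ x‖ ≤ D * ∑ i, Φ x ![bs i, w i]) :
    ∫ x in Metric.ball q t, ‖Φ x‖ ≤ D * (d * (M * S *
      (volume : Measure (E d)).real (Metric.closedBall q (2 * t)) +
        2 * (A * S) * ∫ x in Metric.closedBall q (2 * t), ‖Ψ x‖)) := by
  have hA0 : 0 ≤ A := (norm_nonneg _).trans (hgd 0)
  have hgc := hg.continuous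
  have hdc : ∀ u : E d, Continuous (fun x => fderiv ℝ g x u) := fun u =>
    (hg.continuous_fderiv (by simp)).clm_apply continuous_const
  have hgn : ∀ x, x ∉ Metric.closedBall q (2 * t) → g x = 0 := fun x hx =>
    image_eq_zero_of_notMem_tsupport fun h => hx (hgs h)
  have hgdn : ∀ x, x ∉ Metric.closedBall q (2 * t) → fderiv ℝ g x = 0 := fun x hx =>
    image_eq_zero_of_notMem_tsupport fun h => hx (hgs (tsupport_fderiv_subset ℝ h))
  -- integrability
  have i1 : ∀ {f : E d → ℝ}, Integrable f → Integrable (fun x => g x * f x) := by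
    intro f hf
    refine Integrable.mono' hf.norm (hgc.aestronglyMeasurable.mul hf.aestronglyMeasurable)
      (Eventually.of_forall fun x => ?_)
    rw [norm_mul, Real.norm_of_nonneg (hg0 x)]
    exact mul_le_of_le_one_left (norm_nonneg _) (hg1 x)
  have i2 : ∀ (u : E d) {f : E d → ℝ}, Integrable f → Integrable (fun x => fderiv ℝ g x u * f x) := by
    intro u f hf
    refine Integrable.mono' (hf.norm.const_mul (A * ‖u‖))
      ((hdc u).aestronglyMeasurable.mul hf.aestronglyMeasurable)
      (Eventually.of_forall fun x => ?_)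
    rw [norm_mul]
    refine mul_le_mul_of_nonneg_right ?_ (norm_nonneg _)
    exact (ContinuousLinearMap.le_opNorm _ _).trans
      (mul_le_mul_of_nonneg_right (hgd x) (norm_nonneg _))
  have hV : 0 ≤ (volume : Measure (E d)).real (Metric.closedBall q (2 * t)) := measureReal_nonneg
  -- the identity
  have hkey : ∀ i, ∫ x, g x * Φ x ![bs i, w i] ≤ M * S *
      (volume : Measure (E d)).real (Metric.closedBall q (2 * t)) +
        2 * (A * S) * ∫ x in Metric.closedBall q (2 * t), ‖Ψ x‖ := by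
    intro i
    have a1 := i1 (ev_int hΦ (bs i) (w i))
    have a2 := i1 (ev_int hΦ0 (bs i) (w i))
    have a3 := i2 (bs i) (ev1_int hΨ (w i))
    have a4 := i2 (w i) (ev1_int hΨ (bs i))
    have h1 := hid (bs i) (w i)
    have h2 : ∀ x, g x * (Φ x ![bs i, w i] - Φ0 x ![bs i, w i]) + fderiv ℝ g x (bs i) * Ψ x ![w i] -
        fderiv ℝ g x (w i) * Ψ x ![bs i] = (g x * Φ x ![bs i, w i] - g x * Φ0 x ![bs i, w i]) +
        fderiv ℝ g x (bs i) * Ψ x ![w i] - fderiv ℝ g x (w i) * Ψ x ![bs i] := fun x => by ring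
    have b1 : Integrable (fun x => g x * Φ x ![bs i, w i] - g x * Φ0 x ![bs i, w i]) := a1.sub a2
    have b2 : Integrable (fun x => g x * Φ x ![bs i, w i] - g x * Φ0 x ![bs i, w i] +
        fderiv ℝ g x (bs i) * Ψ x ![w i]) := b1.add a3
    rw [integral_congr_ae (Eventually.of_forall h2), integral_sub b2 a4, integral_add b1 a3,
      integral_sub a1 a2] at h1
    have h3 : ∫ x, g x * Φ0 x ![bs i, w i] ≤ M * S *
        (volume : Measure (E d)).real (Metric.closedBall q (2 * t)) := by
      have e1 : ∫ x, g x * Φ0 x ![bs i, w i] =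
          ∫ x in Metric.closedBall q (2 * t), g x * Φ0 x ![bs i, w i] := by
        rw [setIntegral_eq_integral_of_forall_compl_eq_zero]
        intro x hx
        rw [hgn x hx, zero_mul]
      rw [e1]
      have e2 := norm_setIntegral_le_of_norm_le_const (μ := (volume : Measure (E d)))
        (s := Metric.closedBall q (2 * t)) (f := fun x => g x * Φ0 x ![bs i, w i]) (C := M * S)
        measure_closedBall_lt_top (fun x _ => by
          rw [norm_mul, Real.norm_of_nonneg (hg0 x), Real.norm_eq_abs]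
          have b1 := two_bound (Φ0 x) (bs i) (w i)
          rw [bs_norm, one_mul] at b1
          have b2 : ‖Φ0 x‖ * ‖w i‖ ≤ M * S := mul_le_mul (hM x) (hw i) (norm_nonneg _) hM0
          have b3 : g x * |Φ0 x ![bs i, w i]| ≤ 1 * |Φ0 x ![bs i, w i]| :=
            mul_le_mul_of_nonneg_right (hg1 x) (abs_nonneg _)
          linarith)
      exact (le_abs_self _).trans e2
    have h4 : ∀ (u v : E d), ‖u‖ * ‖v‖ ≤ S →
        |∫ x, fderiv ℝ g x u * Ψ x ![v]| ≤ A * S * ∫ x in Metric.closedBall q (2 * t), ‖Ψ x‖ := by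
      intro u v huv
      have e1 : ∫ x, fderiv ℝ g x u * Ψ x ![v] =
          ∫ x in Metric.closedBall q (2 * t), fderiv ℝ g x u * Ψ x ![v] := by
        rw [setIntegral_eq_integral_of_forall_compl_eq_zero]
        intro x hx
        rw [hgdn x hx]
        simp
      rw [e1, ← Real.norm_eq_abs, ← integral_const_mul]
      refine norm_integral_le_of_norm_le (hΨ.norm.integrableOn.const_mul (A * S))
        (Eventually.of_forall fun x => ?_)
      rw [norm_mul, Real.norm_eq_abs (Ψ x ![v])]
      have b1 := one_bound (Ψ x) v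
      have b2 : ‖fderiv ℝ g x u‖ ≤ A * ‖u‖ := (ContinuousLinearMap.le_opNorm _ _).trans
        (mul_le_mul_of_nonneg_right (hgd x) (norm_nonneg _))
      calc ‖fderiv ℝ g x u‖ * |Ψ x ![v]| ≤ (A * ‖u‖) * (‖Ψ x‖ * ‖v‖) :=
            mul_le_mul b2 b1 (abs_nonneg _) (by positivity)
        _ = A * (‖u‖ * ‖v‖) * ‖Ψ x‖ := by ring
        _ ≤ A * S * ‖Ψ x‖ := by gcongr
    have h5 := h4 (bs i) (w i) (by rw [bs_norm, one_mul]; exact hw i)
    have h6 := h4 (w i) (bs i) (by rw [bs_norm, mul_one]; exact hw i)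
    have h7 := (abs_le.1 h5).1
    have h8 := (abs_le.1 h6).2
    linarith
  -- the conclusion
  have hfin : ∀ i ∈ (Finset.univ : Finset (Fin d)),
      Integrable (fun x => g x * Φ x ![bs i, w i]) := fun i _ => i1 (ev_int hΦ (bs i) (w i))
  have hn := hΦ.norm
  calc ∫ x in Metric.ball q t, ‖Φ x‖ = ∫ x in Metric.ball q t, g x * ‖Φ x‖ := by
        refine setIntegral_congr_fun Metric.isOpen_ball.measurableSet fun x hx => ?_
        simp only [hgb x hx, one_mul]
    _ ≤ ∫ x, g x * ‖Φ x‖ := by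
        refine setIntegral_le_integral (i1 hn) (Eventually.of_forall fun x => ?_)
        exact mul_nonneg (hg0 x) (norm_nonneg _)
    _ ≤ ∫ x, D * ∑ i, g x * Φ x ![bs i, w i] := by
        refine integral_mono_ae (i1 hn) ((integrable_finset_sum _ hfin).const_mul D) ?_
        filter_upwards [hpt] with x hx
        by_cases h : x ∈ Metric.closedBall q (2 * t)
        · have h1 := mul_le_mul_of_nonneg_left (hx h) (hg0 x)
          refine h1.trans (le_of_eq ?_)
          rw [Finset.mul_sum, Finset.mul_sum, Finset.mul_sum]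
          refine Finset.sum_congr rfl fun i _ => ?_
          ring
        · simp only [hgn x h, zero_mul, Finset.sum_const_zero, mul_zero, le_refl]
    _ = D * ∑ i, ∫ x, g x * Φ x ![bs i, w i] := by
        rw [integral_const_mul, integral_finset_sum _ hfin]
    _ ≤ D * ∑ _i : Fin d, (M * S *
        (volume : Measure (E d)).real (Metric.closedBall q (2 * t)) +
          2 * (A * S) * ∫ x in Metric.closedBall q (2 * t), ‖Ψ x‖) :=
        mul_le_mul_of_nonneg_left (Finset.sum_le_sum fun i _ => hkey i) hD0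
    _ = _ := by rw [Finset.sum_const, Finset.card_univ, Fintype.card_fin, nsmul_eq_mul]

end Pool.Agent.U896.PG
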