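import Pool.Agent.U896.PG.G2

/-!
# Growth of nonnegative forms with a primitive of small growth: the estimate in a chart
-/

set_option autoImplicit false

open Set Filter Topology MeasureTheory
open scoped Manifold ContDiff ENNReal

noncomputable section

namespace Pool.Agent.U896.PG

open Pool.Agent.Y501.SY (E)
open Pool.Agent.Y515.SY
open Pool.Agent.U896.SE

variable {d : ℕ}

theorem growthG {T : Set (E d)} (hT : IsOpen T) {s s0 : E d → Al d 2} {b : E d → Al d 1}
    (hs : LocallyIntegrableOn s T) (hb : LocallyIntegrableOn b T) (hs0 : ContinuousOn s0 T)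
    (hw : ∀ g : E d → ℝ, ContDiff ℝ ∞ g → HasCompactSupport g → tsupport g ⊆ T →
      ∀ u v : E d, ∫ q, (g q * (s q ![u, v] - s0 q ![u, v]) + fderiv ℝ g q u * b q ![v] -
        fderiv ℝ g q v * b q ![u]) = 0)
    {Js : E d → (E d →L[ℝ] E d)} (hJ : ContinuousOn Js T) {p : E d} (hp : p ∈ T) {B R₀ : ℝ}
    (hB : 0 ≤ B) (hR₀ : 0 < R₀)
    (hae : ∀ᵐ x : E d, x ∈ Metric.ball p R₀ → (∀ v, 0 ≤ s x ![v, Js x v]) ∧
      ∀ v w, (s x ![v, w]) ^ 2 ≤ B * (s x ![v, Js x v] * s x ![w, Js x w]))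
    {β r₁ C₁ : ℝ} (hβ : 0 ≤ β) (hr₁ : 0 < r₁)
    (hbM : ∀ q ∈ Metric.ball p r₁, ∀ t : ℝ, 0 < t → t ≤ r₁ →
      ∫⁻ x in Metric.ball q t, ‖b x‖ₑ ≤ ENNReal.ofReal (C₁ * t ^ ((d : ℝ) - β))) :
    ∃ r C : ℝ, 0 < r ∧ ∀ q ∈ Metric.ball p r, ∀ t : ℝ, 0 < t → t ≤ r →
      ∫⁻ x in Metric.ball q t, ‖s x‖ₑ ≤ ENNReal.ofReal (C * t ^ ((d : ℝ) - (1 + β))) := by
  obtain ⟨κ, hκ⟩ : ∃ κ : ℝ, κ = 1 / (2 * ((d : ℝ) ^ 2 * Real.sqrt B * d + 1)) := ⟨_, rfl⟩
  have hden : 0 < (d : ℝ) ^ 2 * Real.sqrt B * d + 1 := by positivity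
  have hκ0 : 0 < κ := by rw [hκ]; positivity
  have hκ1 : (d : ℝ) ^ 2 * Real.sqrt B * (d * κ) ≤ 1 / 2 := by
    rw [hκ]
    have e : (d : ℝ) ^ 2 * Real.sqrt B * (d * (1 / (2 * ((d : ℝ) ^ 2 * Real.sqrt B * d + 1)))) =
        1 / 2 * ((d : ℝ) ^ 2 * Real.sqrt B * d / ((d : ℝ) ^ 2 * Real.sqrt B * d + 1)) := by
      field_simp
    rw [e]
    have h1 : (d : ℝ) ^ 2 * Real.sqrt B * d / ((d : ℝ) ^ 2 * Real.sqrt B * d + 1) ≤ 1 := by
      rw [div_le_one hden]
      linarith
    linarith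
  -- the radius
  obtain ⟨R, hR, hRT, hRR, hR1, hR2, hRJ⟩ : ∃ R : ℝ, 0 < R ∧ Metric.closedBall p R ⊆ T ∧ R < R₀ ∧
      R ≤ r₁ ∧ R ≤ 1 ∧ ∀ x ∈ Metric.closedBall p R, ‖Js x - Js p‖ ≤ κ / 2 := by
    have hc : ContinuousAt Js p := hJ.continuousAt (hT.mem_nhds hp)
    have h1 : ∀ᶠ x in 𝓝 p, ‖Js x - Js p‖ ≤ κ / 2 := by
      have h2 : Tendsto (fun x => ‖Js x - Js p‖) (𝓝 p) (𝓝 0) := by
        have h3 : Tendsto (fun x => ‖Js x - Js p‖) (𝓝 p) (𝓝 ‖Js p - Js p‖) :=
          (hc.sub tendsto_const_nhds).norm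
        rwa [sub_self, norm_zero] at h3
      exact (h2.eventually (gt_mem_nhds (by positivity : (0 : ℝ) < κ / 2))).mono fun x hx => hx.le
    obtain ⟨R, hR, h4⟩ := Metric.nhds_basis_closedBall.mem_iff.1 ((hT.mem_nhds hp : _ ∈ 𝓝 p))
    obtain ⟨R', hR', h5⟩ := Metric.nhds_basis_closedBall.mem_iff.1 h1
    refine ⟨min (min R R') (min (R₀ / 2) (min r₁ 1)), by positivity, ?_, ?_, ?_, ?_, ?_⟩
    · exact (Metric.closedBall_subset_closedBall ((min_le_left _ _).trans (min_le_left _ _))).trans h4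
    · have : min (min R R') (min (R₀ / 2) (min r₁ 1)) ≤ R₀ / 2 :=
        (min_le_right _ _).trans (min_le_left _ _)
      linarith
    · exact (min_le_right _ _).trans ((min_le_right _ _).trans (min_le_left _ _))
    · exact (min_le_right _ _).trans ((min_le_right _ _).trans (min_le_right _ _))
    · intro x hx
      exact h5 (Metric.closedBall_subset_closedBall
        ((min_le_left _ _).trans (min_le_right _ _)) hx)
  obtain ⟨Q, hQ⟩ : ∃ Q, Q = Metric.closedBall p R := ⟨_, rfl⟩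
  have hQc : IsCompact Q := by rw [hQ]; exact isCompact_closedBall _ _
  have hQT : Q ⊆ T := by rw [hQ]; exact hRT
  have hi : IntegrableOn s Q volume := (hs.mono_set hQT).integrableOn_isCompact hQc
  have hi' : IntegrableOn b Q volume := (hb.mono_set hQT).integrableOn_isCompact hQc
  have hi0 : IntegrableOn s0 Q volume := (hs0.mono hQT).integrableOn_compact hQc
  obtain ⟨M', hM'⟩ := hQc.exists_bound_of_continuousOn (hs0.mono hQT)
  have hΦ : Integrable (Q.indicator s) := Pool.Agent.U896.SC.ind_Q' hQc hi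
  have hΦ0 : Integrable (Q.indicator s0) := Pool.Agent.U896.SC.ind_Q' hQc hi0
  have hΨ : Integrable (Q.indicator b) := Pool.Agent.U896.SC.ind_Q' hQc hi'
  have hM : ∀ x, ‖Q.indicator s0 x‖ ≤ |M'| := by
    intro x
    by_cases h : x ∈ Q
    · rw [indicator_of_mem h]
      exact (hM' x h).trans (le_abs_self _)
    · rw [indicator_of_notMem h, norm_zero]
      exact abs_nonneg _
  obtain ⟨Cg, hCg, hcut⟩ := cut_exists d
  obtain ⟨S, hS⟩ : ∃ S, S = ‖Js p‖ + κ / 2 := ⟨_, rfl⟩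
  have hS0 : 0 ≤ S := by rw [hS]; positivity
  obtain ⟨D, hD⟩ : ∃ D, D = 2 * ((d : ℝ) ^ 2 * Real.sqrt B) := ⟨_, rfl⟩
  have hD0 : 0 ≤ D := by rw [hD]; positivity
  obtain ⟨V, hV⟩ : ∃ V, V = (volume : Measure (E d)).real (Metric.ball 0 1) := ⟨_, rfl⟩
  have hV0 : 0 ≤ V := by rw [hV]; exact measureReal_nonneg
  refine ⟨R / 8, D * (d * (|M'| * S * (2 ^ d * V) + 2 * (Cg * S) * (|C₁| * 3 ^ ((d : ℝ) - β)))),
    by positivity, fun q hq t ht htr => ?_⟩
  rw [Metric.mem_ball] at hq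
  have hqb : ∀ a : ℝ, a ≤ 3 * t → Metric.closedBall q a ⊆ Metric.closedBall p (R / 2) := by
    intro a ha
    refine Metric.closedBall_subset_closedBall' ?_
    linarith
  have hsub : Metric.closedBall q (2 * t) ⊆ Q := by
    rw [hQ]
    exact (hqb _ (by linarith)).trans (Metric.closedBall_subset_closedBall (by linarith))
  have hsub3 : Metric.ball q (3 * t) ⊆ Q := by
    rw [hQ]
    exact Metric.ball_subset_closedBall.trans
      ((hqb _ le_rfl).trans (Metric.closedBall_subset_closedBall (by linarith)))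
  have hsub1 : Metric.ball q t ⊆ Q :=
    (Metric.ball_subset_ball (by linarith)).trans hsub3
  have hqQ : q ∈ Metric.closedBall p R := by
    rw [Metric.mem_closedBall]
    linarith
  obtain ⟨g, hg, hgc, hgs, hg0, hg1, hgb, hgd⟩ := hcut q t ht
  have h1 := core hg ht hgs hg0 hg1 hgb hgd hΦ hΦ0 hΨ (abs_nonneg M') hS0 hD0 hM
    (w := fun i => Js q (bs i)) (fun i => by
      refine (ContinuousLinearMap.le_opNorm _ _).trans ?_
      rw [bs_norm, mul_one, hS]
      calc ‖Js q‖ = ‖Js p + (Js q - Js p)‖ := by rw [add_sub_cancel]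
        _ ≤ ‖Js p‖ + ‖Js q - Js p‖ := norm_add_le _ _
        _ ≤ _ := by linarith [hRJ q hqQ])
    (fun u v => by
      rw [← hw g hg hgc (hgs.trans (hsub.trans hQT)) u v]
      refine integral_congr_ae (Eventually.of_forall fun x => ?_)
      dsimp only
      by_cases h : x ∈ Q
      · rw [indicator_of_mem h, indicator_of_mem h, indicator_of_mem h]
      · have e1 : g x = 0 := image_eq_zero_of_notMem_tsupport fun h' => h (hsub (hgs h'))
        have e2 : fderiv ℝ g x = 0 := image_eq_zero_of_notMem_tsupport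
          fun h' => h (hsub (hgs (tsupport_fderiv_subset ℝ h')))
        rw [e1, e2]
        simp)
    (by
      filter_upwards [hae] with x hx hxb
      have hxQ : x ∈ Q := hsub hxb
      have hxR : x ∈ Metric.closedBall p R := by rw [← hQ]; exact hxQ
      obtain ⟨h2, h3⟩ := hx (by
        rw [Metric.mem_ball]
        rw [Metric.mem_closedBall] at hxR
        linarith)
      rw [indicator_of_mem hxQ, hD]
      refine ptG2 hB h2 h3 (fun i => ?_) hκ1
      have e1 : Js q (bs i) - Js x (bs i) = ((Js q - Js p) - (Js x - Js p)) (bs i) := by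
        simp
      rw [e1]
      refine (ContinuousLinearMap.le_opNorm _ _).trans ?_
      rw [bs_norm, mul_one]
      refine (norm_sub_le _ _).trans ?_
      linarith [hRJ q hqQ, hRJ x hxR])
  -- the integral of the primitive
  have h2 : ∫ x in Metric.closedBall q (2 * t), ‖Q.indicator b x‖ ≤
      |C₁| * (3 * t) ^ ((d : ℝ) - β) := by
    have e1 : ∫ x in Metric.closedBall q (2 * t), ‖Q.indicator b x‖ ≤
        ∫ x in Metric.ball q (3 * t), ‖Q.indicator b x‖ := by
      refine setIntegral_mono_set hΨ.norm.integrableOn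
        (Eventually.of_forall fun x => norm_nonneg _) (HasSubset.Subset.eventuallyLE ?_)
      exact Metric.closedBall_subset_ball (by linarith)
    have e2 : ∫ x in Metric.ball q (3 * t), ‖Q.indicator b x‖ =
        ∫ x in Metric.ball q (3 * t), ‖b x‖ := by
      refine setIntegral_congr_fun Metric.isOpen_ball.measurableSet fun x hx => ?_
      simp only [indicator_of_mem (hsub3 hx)]
    have e3 := hbM q (by
      rw [Metric.mem_ball]
      linarith) (3 * t) (by positivity) (by linarith)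
    rw [← ofReal_integral_norm_eq_lintegral_enorm (hi'.mono_set hsub3)] at e3
    have e4 : ENNReal.ofReal (C₁ * (3 * t) ^ ((d : ℝ) - β)) ≤
        ENNReal.ofReal (|C₁| * (3 * t) ^ ((d : ℝ) - β)) :=
      ENNReal.ofReal_le_ofReal (mul_le_mul_of_nonneg_right (le_abs_self _) (by positivity))
    have e5 := (ENNReal.ofReal_le_ofReal_iff (by positivity)).1 (e3.trans e4)
    rw [e2] at e1
    exact e1.trans e5
  have h3 : (volume : Measure (E d)).real (Metric.closedBall q (2 * t)) = 2 ^ d * V * t ^ d := by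
    rw [Measure.addHaar_real_closedBall _ _ (by positivity), hV]
    have e1 : Module.finrank ℝ (E d) = d := by simp
    rw [e1, mul_pow]
    ring
  have h4 : (∫ x in Metric.ball q t, ‖s x‖) = ∫ x in Metric.ball q t, ‖Q.indicator s x‖ := by
    refine setIntegral_congr_fun Metric.isOpen_ball.measurableSet fun x hx => ?_
    simp only [indicator_of_mem (hsub1 hx)]
  rw [← ofReal_integral_norm_eq_lintegral_enorm (hi.mono_set hsub1)]
  refine ENNReal.ofReal_le_ofReal ?_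
  rw [h4]
  refine h1.trans ?_
  rw [h3, mul_assoc D, mul_assoc (d : ℝ)]
  refine mul_le_mul_of_nonneg_left (mul_le_mul_of_nonneg_left ?_ (Nat.cast_nonneg d)) hD0
  have ht1 : t ≤ 1 := by linarith
  have k1 : t ^ d ≤ t ^ ((d : ℝ) - (1 + β)) := by
    rw [← Real.rpow_natCast]
    exact Real.rpow_le_rpow_of_exponent_ge ht ht1 (by linarith)
  have k2 : t⁻¹ * (3 * t) ^ ((d : ℝ) - β) = 3 ^ ((d : ℝ) - β) * t ^ ((d : ℝ) - (1 + β)) := by
    rw [Real.mul_rpow (by norm_num) ht.le]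
    have e1 : (d : ℝ) - (1 + β) = ((d : ℝ) - β) - 1 := by ring
    rw [e1, Real.rpow_sub_one ht.ne']
    field_simp
  have k3 : 2 * (Cg * t⁻¹ * S) * (∫ x in Metric.closedBall q (2 * t), ‖Q.indicator b x‖) ≤
      2 * (Cg * S) * (|C₁| * 3 ^ ((d : ℝ) - β)) * t ^ ((d : ℝ) - (1 + β)) := by
    calc 2 * (Cg * t⁻¹ * S) * (∫ x in Metric.closedBall q (2 * t), ‖Q.indicator b x‖)
        ≤ 2 * (Cg * t⁻¹ * S) * (|C₁| * (3 * t) ^ ((d : ℝ) - β)) :=
          mul_le_mul_of_nonneg_left h2 (by positivity)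
      _ = 2 * (Cg * S) * |C₁| * (t⁻¹ * (3 * t) ^ ((d : ℝ) - β)) := by ring
      _ = _ := by rw [k2]; ring
  have k4 : |M'| * S * (2 ^ d * V * t ^ d) ≤ |M'| * S * (2 ^ d * V) * t ^ ((d : ℝ) - (1 + β)) := by
    calc |M'| * S * (2 ^ d * V * t ^ d) = |M'| * S * (2 ^ d * V) * t ^ d := by ring
      _ ≤ _ := mul_le_mul_of_nonneg_left k1 (by positivity)
  rw [add_mul]
  exact add_le_add k4 k3

end Pool.Agent.U896.PG
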